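import Pool.Agent.Helper50.AL.Pot

/-!
# AL-6: the local search ends in a local maximum
-/

set_option autoImplicit false

namespace Pool.Agent.Helper36.Alg

open Finset Pool.Agent.Helper36.PT

theorem length_upd1 (p c : ℕ) (x : List ℕ) : (upd1 p c x).length = x.length := by
  unfold upd1
  rw [List.length_set]

theorem length_cand (p m c : ℕ) (x : List ℕ) : (cand p m c x).length = x.length := by
  unfold cand
  rw [length_upd1, length_upd1, length_upd1]

theorem length_lsStep (p D m : ℕ) (A B : ℕ → ℕ → ℕ) (x : List ℕ) :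
    (lsStep p D m A B x).length = x.length := by
  unfold lsStep
  split
  · exact length_cand _ _ _ _
  · rfl

theorem length_recN_ls (p D m : ℕ) (A B : ℕ → ℕ → ℕ) (n : ℕ) :
    (recN (List.replicate m 0) (fun _ x => lsStep p D m A B x) n).length = m := by
  induction n with
  | zero => exact List.length_replicate
  | succ n ih =>
    show (lsStep p D m A B _).length = m
    rw [length_lsStep, ih]

theorem length_lsRun (p D m : ℕ) (A B : ℕ → ℕ → ℕ) : (lsRun p D m A B).length = m :=
  length_recN_ls p D m A B _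

theorem ind_le_one (Q : Prop) : ind Q ≤ 1 := by
  by_cases h : Q
  · rw [ind_pos Q h]
  · rw [ind_neg Q h]; exact Nat.zero_le _

theorem trk_le {p : ℕ} (hp : p.Prime) (D m : ℕ) (A B : ℕ → ℕ → ℕ) (x : List ℕ) :
    trk p D m A B x ≤ D := by
  have : Fact p.Prime := ⟨hp⟩
  rw [trk_eq]
  exact (Matrix.rank_le_card_width _).trans (by rw [Fintype.card_fin])

theorem potN_le {p : ℕ} (hp : p.Prime) (D m : ℕ) (A B : ℕ → ℕ → ℕ) (x : List ℕ) :
    potN p D m A B x ≤ potMax D m := by
  have h1 := trk_le hp D m A B x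
  have h2 : ∑ i ∈ Finset.range m, ind (isOne p D m A B x i) ≤ m := by
    refine (Finset.sum_le_card_nsmul _ _ 1 fun i _ => ind_le_one _).trans ?_
    simp
  have h3 : ∑ i ∈ Finset.range m, ∑ k ∈ Finset.range m,
      ind (isOne p D m A B x i ∧ isOne p D m A B x k ∧ isAdj p D m A B x i k) ≤ m ^ 2 := by
    refine (Finset.sum_le_card_nsmul _ _ m fun i _ => ?_).trans ?_
    · refine (Finset.sum_le_card_nsmul _ _ 1 fun i _ => ind_le_one _).trans ?_
      simp
    · rw [Finset.card_range, smul_eq_mul, sq]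
  unfold potN potMax
  exact add_le_add (Nat.mul_le_mul_right _ (add_le_add (Nat.mul_le_mul_right _ h1) h2)) h3

theorem mu_lt {n : ℕ} {Q : ℕ → Prop} (h : ∃ i, i < n ∧ Q i) : mu n Q < n ∧ Q (mu n Q) := by
  classical
  unfold mu
  rw [dif_pos h]
  exact Nat.find_spec h

theorem mu_ge {n : ℕ} {Q : ℕ → Prop} (h : ¬ ∃ i, i < n ∧ Q i) : mu n Q = n := by
  classical
  unfold mu
  rw [dif_neg h]

/-- no candidate is better -/
def Stuck (p D m : ℕ) (A B : ℕ → ℕ → ℕ) (x : List ℕ) : Prop :=
  ∀ c < (m * p) ^ 3, potN p D m A B (cand p m c x) ≤ potN p D m A B x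

theorem lsStep_stuck (p D m : ℕ) (A B : ℕ → ℕ → ℕ) (x : List ℕ) (h : Stuck p D m A B x) :
    lsStep p D m A B x = x := by
  unfold lsStep best
  rw [mu_ge, if_neg (lt_irrefl _)]
  rintro ⟨c, hc, hlt⟩
  exact absurd (h c hc) (not_le.2 hlt)

theorem lsStep_not_stuck (p D m : ℕ) (A B : ℕ → ℕ → ℕ) (x : List ℕ)
    (h : ¬ Stuck p D m A B x) : potN p D m A B x < potN p D m A B (lsStep p D m A B x) := by
  have h1 : ∃ c, c < (m * p) ^ 3 ∧ potN p D m A B x < potN p D m A B (cand p m c x) := by
    unfold Stuck at h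
    push Not at h
    obtain ⟨c, hc, hlt⟩ := h
    exact ⟨c, hc, hlt⟩
  obtain ⟨h2, h3⟩ := mu_lt h1
  unfold lsStep
  have h4 : best p D m A B x < (m * p) ^ 3 := h2
  rw [if_pos h4]
  exact h3

theorem ls_inv (p D m : ℕ) (A B : ℕ → ℕ → ℕ) (n : ℕ) :
    Stuck p D m A B (recN (List.replicate m 0) (fun _ x => lsStep p D m A B x) n) ∨
    n ≤ potN p D m A B (recN (List.replicate m 0) (fun _ x => lsStep p D m A B x) n) := by
  induction n with
  | zero => exact Or.inr (Nat.zero_le _)
  | succ n ih =>
    have hs : recN (List.replicate m 0) (fun _ x => lsStep p D m A B x) (n + 1) =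
      lsStep p D m A B (recN (List.replicate m 0) (fun _ x => lsStep p D m A B x) n) := rfl
    rw [hs]
    by_cases h : Stuck p D m A B (recN (List.replicate m 0) (fun _ x => lsStep p D m A B x) n)
    · rw [lsStep_stuck p D m A B _ h]
      exact Or.inl h
    · rcases ih with ih | ih
      · exact absurd ih h
      · have := lsStep_not_stuck p D m A B _ h
        exact Or.inr (by omega)

theorem lsRun_max {p : ℕ} (hp : p.Prime) (D m : ℕ) (A B : ℕ → ℕ → ℕ) {c : ℕ}
    (hc : c < (m * p) ^ 3) :
    potN p D m A B (cand p m c (lsRun p D m A B)) ≤ potN p D m A B (lsRun p D m A B) := by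
  rcases ls_inv p D m A B (potMax D m + 1) with h | h
  · exact h c hc
  · have := potN_le hp D m A B (recN (List.replicate m 0) (fun _ x => lsStep p D m A B x)
      (potMax D m + 1))
    omega

private theorem cover3 {m : ℕ} (hm : 0 < m) (S : Finset (Fin m)) (hS : S.card ≤ 3) :
    ∃ i j k : Fin m, ∀ s ∈ S, s = i ∨ s = j ∨ s = k := by
  let i0 : Fin m := ⟨0, hm⟩
  refine ⟨S.toList.getD 0 i0, S.toList.getD 1 i0, S.toList.getD 2 i0, ?_⟩
  intro s hs
  obtain ⟨n, hn, hsn⟩ := List.getElem_of_mem (Finset.mem_toList.2 hs)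
  have hl : S.toList.length ≤ 3 := by rw [Finset.length_toList]; exact hS
  have h1 : S.toList.getD n i0 = s := by
    rw [List.getD_eq_getElem _ _ hn, hsn]
  have h2 : n < 3 := by omega
  interval_cases n
  · exact Or.inl h1.symm
  · exact Or.inr (Or.inl h1.symm)
  · exact Or.inr (Or.inr h1.symm)

private theorem getD_set (x : List ℕ) (i v t : ℕ) (ht : t < x.length) :
    (x.set i v).getD t 0 = if i = t then v else x.getD t 0 := by
  rw [List.getD_eq_getElem _ _ (by rw [List.length_set]; exact ht), List.getElem_set,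
    List.getD_eq_getElem _ _ ht]

/-- every vector which differs in at most three coordinates is a candidate -/
theorem exists_cand {p : ℕ} [hp : Fact p.Prime] {m : ℕ} (x : List ℕ) (hx : x.length = m)
    (y : Fin m → ZMod p) (hy : (Finset.univ.filter (fun i => y i ≠ coefZ p m x i)).card ≤ 3)
    (hm : 0 < m) : ∃ c < (m * p) ^ 3, coefZ p m (cand p m c x) = y := by
  obtain ⟨i, j, k, hijk⟩ := cover3 hm _ hy
  have hp0 : 0 < p := hp.out.pos
  have hcode : ∀ i : Fin m, (i : ℕ) * p + (y i).val < m * p := by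
    intro i
    have h1 : (y i).val < p := ZMod.val_lt _
    have h2 : ((i : ℕ) + 1) * p ≤ m * p := Nat.mul_le_mul_right _ i.2
    rw [add_mul, one_mul] at h2
    omega
  have hupd : ∀ (i : Fin m) (z : List ℕ), upd1 p ((i : ℕ) * p + (y i).val) z =
      z.set i (y i).val := by
    intro i z
    have h1 : (y i).val < p := ZMod.val_lt _
    unfold upd1
    rw [Nat.mul_comm, Nat.mul_add_div hp0, Nat.div_eq_of_lt h1, add_zero, Nat.mul_add_mod,
      Nat.mod_eq_of_lt h1]
  set q := m * p with hq
  set c1 := (i : ℕ) * p + (y i).val with hc1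
  set c2 := (j : ℕ) * p + (y j).val with hc2
  set c3 := (k : ℕ) * p + (y k).val with hc3
  have h1 : c1 < q := hcode i
  have h2 : c2 < q := hcode j
  have h3 : c3 < q := hcode k
  have hq0 : 0 < q := by omega
  refine ⟨q * (q * c3 + c2) + c1, ?_, ?_⟩
  · have e1 : q * c3 + c2 < q * q := by
      have : q * (c3 + 1) ≤ q * q := Nat.mul_le_mul_left _ h3
      rw [mul_add, mul_one] at this
      omega
    have e2 : q * (q * c3 + c2 + 1) ≤ q * (q * q) := Nat.mul_le_mul_left _ e1
    rw [mul_add, mul_one] at e2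
    have e3 : q ^ 3 = q * (q * q) := by ring
    rw [e3]
    omega
  · have d1 : (q * (q * c3 + c2) + c1) % q = c1 := by
      rw [Nat.mul_add_mod, Nat.mod_eq_of_lt h1]
    have d2 : (q * (q * c3 + c2) + c1) / q = q * c3 + c2 := by
      rw [Nat.mul_add_div hq0, Nat.div_eq_of_lt h1, add_zero]
    have d3 : (q * c3 + c2) % q = c2 := by
      rw [Nat.mul_add_mod, Nat.mod_eq_of_lt h2]
    have d4 : (q * c3 + c2) / q = c3 := by
      rw [Nat.mul_add_div hq0, Nat.div_eq_of_lt h2, add_zero]
    unfold cand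
    rw [← hq, d1, d2, d3, d4, hc1, hc2, hc3, hupd, hupd, hupd]
    funext t
    have ht : (t : ℕ) < x.length := by rw [hx]; exact t.2
    unfold coefZ
    rw [getD_set _ _ _ _ (by rw [List.length_set, List.length_set]; exact ht),
      getD_set _ _ _ _ (by rw [List.length_set]; exact ht), getD_set _ _ _ _ ht]
    by_cases e1 : (i : ℕ) = t
    · have : i = t := Fin.ext e1
      rw [if_pos e1, this]
      exact ZMod.natCast_zmod_val _
    by_cases e2 : (j : ℕ) = t
    · have : j = t := Fin.ext e2
      rw [if_neg e1, if_pos e2, this]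
      exact ZMod.natCast_zmod_val _
    by_cases e3 : (k : ℕ) = t
    · have : k = t := Fin.ext e3
      rw [if_neg e1, if_neg e2, if_pos e3, this]
      exact ZMod.natCast_zmod_val _
    rw [if_neg e1, if_neg e2, if_neg e3]
    by_contra hne
    have := hijk t (Finset.mem_filter.2 ⟨Finset.mem_univ _, fun h => hne h.symm⟩)
    rcases this with h | h | h
    · exact e1 (by rw [h])
    · exact e2 (by rw [h])
    · exact e3 (by rw [h])

end Pool.Agent.Helper36.Alg
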