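import Pool.Agent.Helper36.LM.Opt
import Pool.Agent.Helper50.AL.Max

/-!
# AL-7: correctness of the algorithm
-/

set_option autoImplicit false

namespace Pool.Agent.Helper36.Alg

open Finset Pool.Agent.Helper36.PT

open Classical in
theorem solve_spec {p : ℕ} [hp : Fact p.Prime] (D m : ℕ) (A B : ℕ → ℕ → ℕ)
    (hbig : 2 + m + 2 * m ^ 2 < p)
    (hnd : ∀ (i : Fin m) (s t : ZMod p), s • vecZ p D m A i + t • vecZ p D m B i = 0 →
      s = 0 ∧ t = 0) :
    (∀ Z : Finset (Fin m), LinearIndependent (ZMod p)
      (fun i : Z × Fin 2 => ![vecZ p D m A i.1, vecZ p D m B i.1] i.2) →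
        2 * Z.card ≤ solve p D m A B) ∧
    ∃ Z : Finset (Fin m), LinearIndependent (ZMod p)
      (fun i : Z × Fin 2 => ![vecZ p D m A i.1, vecZ p D m B i.1] i.2) ∧
        2 * Z.card = solve p D m A B := by
  have hK : LM.Big (ZMod p) (2 + Fintype.card (Fin m) + 2 * Fintype.card (Fin m) ^ 2) := by
    intro S hS
    by_contra hcon
    push Not at hcon
    have h1 : S = Finset.univ := Finset.eq_univ_iff_forall.2 hcon
    rw [h1, Finset.card_univ, ZMod.card, Fintype.card_fin] at hS
    omega
  have h := LM.local_max hK (vecZ p D m A) (vecZ p D m B) hnd (coefZ p m (lsRun p D m A B))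
    (by
      intro y hy
      rcases Nat.eq_zero_or_pos m with hm | hm
      · have : y = coefZ p m (lsRun p D m A B) := by
          funext i
          exact absurd i.2 (by omega)
        rw [this]
      · obtain ⟨c, hc, hc2⟩ := exists_cand (lsRun p D m A B) (length_lsRun p D m A B) y
          (by
            refine le_trans (le_of_eq ?_) hy
            congr) hm
        rw [← hc2, ← potN_eq, ← potN_eq]
        exact lsRun_max hp.out D m A B hc)
  unfold solve
  rw [trk_eq]
  exact h

end Pool.Agent.Helper36.Alg
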