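import Pool.Agent.Helper36.Alg.Defs
import Pool.Agent.Helper36.LM.Mat
import Pool.Agent.Helper88.AL.Rank

/-!
# AL-5: the potential of the algorithm is the potential of the theory
-/

set_option autoImplicit false

namespace Pool.Agent.Helper36.Alg

open Finset Pool.Agent.Helper36.PT

/-- the vectors over `ZMod p` -/
def vecZ (p D m : ℕ) (A : ℕ → ℕ → ℕ) : Fin m → Fin D → ZMod p := fun i u => ((A i u : ℕ) : ZMod p)

/-- the coefficients over `ZMod p` -/
def coefZ (p m : ℕ) (x : List ℕ) : Fin m → ZMod p := fun i => ((x.getD i 0 : ℕ) : ZMod p)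

private theorem cast_pm1 {p : ℕ} [hp : Fact p.Prime] : (((p - 1 : ℕ)) : ZMod p) = -1 := by
  rw [Nat.cast_sub hp.out.one_lt.le, ZMod.natCast_self]
  simp

theorem tent_cast {p : ℕ} [hp : Fact p.Prime] (D m : ℕ) (A B : ℕ → ℕ → ℕ) (x : List ℕ)
    (u v : Fin D) : ((tent p m A B x u v : ℕ) : ZMod p) =
      LM.tmat (vecZ p D m A) (vecZ p D m B) (coefZ p m x) u v := by
  unfold tent LM.tmat
  rw [Matrix.sum_apply, Finset.sum_range, Nat.cast_sum]
  refine Finset.sum_congr rfl fun i _ => ?_
  rw [Matrix.smul_apply, Matrix.sub_apply, Matrix.vecMulVec_apply, Matrix.vecMulVec_apply]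
  unfold vecZ coefZ
  push_cast
  rw [cast_pm1, smul_eq_mul]
  ring

theorem trk_eq {p : ℕ} [hp : Fact p.Prime] (D m : ℕ) (A B : ℕ → ℕ → ℕ) (x : List ℕ) :
    trk p D m A B x = (LM.tmat (vecZ p D m A) (vecZ p D m B) (coefZ p m x)).rank := by
  unfold trk
  rw [rankF_eq hp.out]
  congr 1
  ext u v
  exact tent_cast D m A B x u v

theorem isOne_iff {p : ℕ} [hp : Fact p.Prime] (D m : ℕ) (A B : ℕ → ℕ → ℕ) (x : List ℕ)
    (i : Fin m) : isOne p D m A B x i ↔
      (Matrix.fromCols (LM.tmat (vecZ p D m A) (vecZ p D m B) (coefZ p m x))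
        (LM.cols (vecZ p D m A) (vecZ p D m B) i)).rank =
        (LM.tmat (vecZ p D m A) (vecZ p D m B) (coefZ p m x)).rank + 1 := by
  unfold isOne
  rw [trk_eq, rankF_eq hp.out, ← Matrix.rank_submatrix _ (Equiv.refl (Fin D)) finSumFinEquiv]
  have h : (Matrix.of fun (u : Fin D) (v : Fin (D + 2)) =>
      ((ent1 p D m A B x i u v : ℕ) : ZMod p)).submatrix (Equiv.refl (Fin D)) finSumFinEquiv =
      Matrix.fromCols (LM.tmat (vecZ p D m A) (vecZ p D m B) (coefZ p m x))
        (LM.cols (vecZ p D m A) (vecZ p D m B) i) := by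
    ext u v
    rcases v with v | v
    · rw [Matrix.submatrix_apply, Matrix.of_apply, Matrix.fromCols_apply_inl,
        finSumFinEquiv_apply_left, ← tent_cast]
      unfold ent1
      rw [if_pos (by simp)]
      rfl
    · rw [Matrix.submatrix_apply, Matrix.of_apply, Matrix.fromCols_apply_inr,
        finSumFinEquiv_apply_right]
      unfold ent1 LM.cols vecZ
      rw [if_neg (by simp), Matrix.of_apply]
      fin_cases v
      · rw [if_pos (by simp)]; rfl
      · rw [if_neg (by simp)]; rfl
  rw [h]

theorem isAdj_iff {p : ℕ} [hp : Fact p.Prime] (D m : ℕ) (A B : ℕ → ℕ → ℕ) (x : List ℕ)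
    (i k : Fin m) : isAdj p D m A B x i k ↔
      (Matrix.fromBlocks (LM.tmat (vecZ p D m A) (vecZ p D m B) (coefZ p m x))
        (LM.cols (vecZ p D m A) (vecZ p D m B) k)
        (LM.cols (vecZ p D m A) (vecZ p D m B) i).transpose 0).rank =
        (LM.tmat (vecZ p D m A) (vecZ p D m B) (coefZ p m x)).rank + 3 := by
  unfold isAdj
  rw [trk_eq, rankF_eq hp.out, ← Matrix.rank_submatrix _ finSumFinEquiv finSumFinEquiv]
  have h : (Matrix.of fun (u : Fin (D + 2)) (v : Fin (D + 2)) =>
      ((ent2 p D m A B x i k u v : ℕ) : ZMod p)).submatrix finSumFinEquiv finSumFinEquiv =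
      Matrix.fromBlocks (LM.tmat (vecZ p D m A) (vecZ p D m B) (coefZ p m x))
        (LM.cols (vecZ p D m A) (vecZ p D m B) k)
        (LM.cols (vecZ p D m A) (vecZ p D m B) i).transpose 0 := by
    ext u v
    rcases u with u | u <;> rcases v with v | v
    · rw [Matrix.submatrix_apply, Matrix.of_apply, Matrix.fromBlocks_apply₁₁,
        finSumFinEquiv_apply_left, finSumFinEquiv_apply_left, ← tent_cast]
      unfold ent2
      rw [if_pos (by simp), if_pos (by simp)]
      rfl
    · rw [Matrix.submatrix_apply, Matrix.of_apply, Matrix.fromBlocks_apply₁₂,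
        finSumFinEquiv_apply_left, finSumFinEquiv_apply_right]
      unfold ent2 LM.cols vecZ
      rw [if_pos (by simp), if_neg (by simp), Matrix.of_apply]
      fin_cases v
      · rw [if_pos (by simp)]; rfl
      · rw [if_neg (by simp)]; rfl
    · rw [Matrix.submatrix_apply, Matrix.of_apply, Matrix.fromBlocks_apply₂₁,
        finSumFinEquiv_apply_left, finSumFinEquiv_apply_right]
      unfold ent2 LM.cols vecZ
      rw [if_neg (by simp), if_pos (by simp), Matrix.transpose_apply, Matrix.of_apply]
      fin_cases u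
      · rw [if_pos (by simp)]; rfl
      · rw [if_neg (by simp)]; rfl
    · rw [Matrix.submatrix_apply, Matrix.of_apply, Matrix.fromBlocks_apply₂₂,
        finSumFinEquiv_apply_right, finSumFinEquiv_apply_right]
      unfold ent2
      rw [if_neg (by simp), if_neg (by simp)]
      simp
  rw [h]

private theorem ind_eq (Q : Prop) [Decidable Q] : ind Q = if Q then 1 else 0 := by
  by_cases h : Q
  · rw [ind_pos Q h, if_pos h]
  · rw [ind_neg Q h, if_neg h]

theorem potN_eq {p : ℕ} [hp : Fact p.Prime] (D m : ℕ) (A B : ℕ → ℕ → ℕ) (x : List ℕ) :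
    potN p D m A B x = LM.mpot (vecZ p D m A) (vecZ p D m B) (coefZ p m x) := by
  classical
  have h1 : ∑ i ∈ Finset.range m, ind (isOne p D m A B x i) =
      (LM.mone (vecZ p D m A) (vecZ p D m B) (coefZ p m x)).card := by
    unfold LM.mone
    rw [Finset.sum_range, Finset.card_filter]
    refine Finset.sum_congr rfl fun i _ => ?_
    rw [ind_eq]
    simp only [isOne_iff]
  have h2 : ∑ i ∈ Finset.range m, ∑ k ∈ Finset.range m,
      ind (isOne p D m A B x i ∧ isOne p D m A B x k ∧ isAdj p D m A B x i k) =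
      LM.mnum (vecZ p D m A) (vecZ p D m B) (coefZ p m x) := by
    unfold LM.mnum
    have h3 : ((LM.mone (vecZ p D m A) (vecZ p D m B) (coefZ p m x) ×ˢ
        LM.mone (vecZ p D m A) (vecZ p D m B) (coefZ p m x)).filter (fun q =>
        (Matrix.fromBlocks (LM.tmat (vecZ p D m A) (vecZ p D m B) (coefZ p m x))
          (LM.cols (vecZ p D m A) (vecZ p D m B) q.2)
          (LM.cols (vecZ p D m A) (vecZ p D m B) q.1).transpose 0).rank =
          (LM.tmat (vecZ p D m A) (vecZ p D m B) (coefZ p m x)).rank + 3)) =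
        (Finset.univ : Finset (Fin m × Fin m)).filter (fun q =>
          isOne p D m A B x q.1 ∧ isOne p D m A B x q.2 ∧ isAdj p D m A B x q.1 q.2) := by
      ext q
      unfold LM.mone
      simp only [Finset.mem_filter, Finset.mem_product, Finset.mem_univ, true_and, isOne_iff,
        isAdj_iff]
      tauto
    have h4 := congrArg Finset.card h3
    have h5 : ((Finset.univ : Finset (Fin m × Fin m)).filter (fun q =>
          isOne p D m A B x q.1 ∧ isOne p D m A B x q.2 ∧ isAdj p D m A B x q.1 q.2)).card =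
        ∑ i : Fin m, ∑ k : Fin m, if isOne p D m A B x i ∧ isOne p D m A B x k ∧
          isAdj p D m A B x i k then 1 else 0 := by
      rw [Finset.card_filter, Fintype.sum_prod_type]
    rw [h5] at h4
    rw [Finset.sum_range]
    refine Eq.trans ?_ (Eq.trans h4.symm ?_)
    · refine Finset.sum_congr rfl fun i _ => ?_
      rw [Finset.sum_range]
      refine Finset.sum_congr rfl fun k _ => ?_
      rw [ind_eq]
    · congr
  unfold potN LM.mpot
  rw [h1, h2, trk_eq, Fintype.card_fin]

end Pool.Agent.Helper36.Alg
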